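import Pool.Agent.H8.UB.Targets

/-!
# Board `ubd_modules`, row FCL: closure functions for algebraically closed fields
-/

open CategoryTheory Polynomial

set_option autoImplicit false

namespace Pool.Agent.H35.UB

open Pool.Agent.H8.UB Pool.Agent.H56.UDs

theorem poly_countable {K : Type} [Field K] (C : Set K) (hC : C.Countable) :
    {P : K[X] | ∀ j, P.coeff j ∈ C}.Countable := by
  have hc : Countable C := hC.to_subtype
  let f : (Σ N : ℕ, Fin N → C) → K[X] := fun x => ∑ i : Fin x.1, monomial (i : ℕ) (x.2 i : K)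
  refine (Set.countable_range f).mono ?_
  intro P hP
  refine ⟨⟨P.natDegree + 1, fun i => ⟨P.coeff i, hP i⟩⟩, ?_⟩
  change ∑ i : Fin (P.natDegree + 1), monomial (i : ℕ) (P.coeff i) = P
  rw [Fin.sum_univ_eq_sum_range (fun i => monomial i (P.coeff i)) (P.natDegree + 1)]
  exact P.as_sum_range.symm

section

variable {n : ℕ} {K : Type} [Field K] (s : SC n K)

/-- basis vectors -/
noncomputable def eb (i : Fin n) : Al s := fun l => if l = i then 1 else 0

theorem al_algebraMap (a : K) (l : Fin n) : (algebraMap K (Al s) a) l = a * s.u l := by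
  rw [Algebra.algebraMap_eq_smul_one]
  rfl

theorem al_nontrivial (hn : 0 < n) : Nontrivial (Al s) := by
  refine ⟨⟨1, 0, fun h => ?_⟩⟩
  have h1 : ∀ l, s.u l = 0 := fun l => congrFun h l
  have h2 := s.one_mul ⟨0, hn⟩ ⟨0, hn⟩
  rw [if_pos rfl] at h2
  simp [h1] at h2

theorem eb_mul (i j l : Fin n) : (eb s i * eb s j) l = s.c i j l := by
  rw [al_mul]
  rw [Finset.sum_eq_single i, Finset.sum_eq_single j]
  · simp [eb]
  · intro j' _ hj
    simp [eb, hj]
  · simp
  · intro i' _ hi
    refine Finset.sum_eq_zero fun j' _ => ?_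
    simp [eb, hi]
  · simp

theorem al_sum {ι : Type} (F : Finset ι) (g : ι → Al s) (l : Fin n) :
    (∑ i ∈ F, g i : Al s) l = ∑ i ∈ F, g i l := by
  classical
  induction F using Finset.induction_on with
  | empty => rfl
  | insert a F ha ih => rw [Finset.sum_insert ha, Finset.sum_insert ha, al_add, ih]

theorem al_expand (x : Al s) : x = ∑ l, algebraMap K (Al s) (x l) * eb s l := by
  apply al_ext
  intro l
  rw [al_sum]
  have : ∀ i, (algebraMap K (Al s) (x i) * eb s i) l = x i * if l = i then 1 else 0 := by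
    intro i
    rw [← Algebra.smul_def, al_smul]
    rfl
  rw [Finset.sum_congr rfl fun i _ => this i]
  simp

/-- the closure function -/
noncomputable def Ph (F : Set (Al s)) : Set (Al s) :=
  (Set.range (eb s) ∪ ⋃ i : Fin n, (fun x : Al s => algebraMap K (Al s) (x i)) '' F) ∪
  ((fun a : K => algebraMap K (Al s) a⁻¹) '' (algebraMap K (Al s) ⁻¹' F) ∪
    ⋃ P ∈ {P : K[X] | ∀ j, P.coeff j ∈ algebraMap K (Al s) ⁻¹' F},
      algebraMap K (Al s) '' {r | P ≠ 0 ∧ P.IsRoot r})

theorem Ph_CP (hn : 0 < n) : CP (Ph s) := by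
  classical
  intro A hA
  have := al_nontrivial s hn
  have hinj : Function.Injective (algebraMap K (Al s)) := (algebraMap K (Al s)).injective
  have hC : (algebraMap K (Al s) ⁻¹' A).Countable := hA.preimage_of_injOn hinj.injOn
  refine ((Set.countable_range _).union (Set.countable_iUnion fun i => hA.image _)).union
    ((hC.image _).union ((poly_countable _ hC).biUnion fun P _ => Set.Countable.image ?_ _))
  by_cases hP : P = 0
  · have : {r : K | P ≠ 0 ∧ P.IsRoot r} = ∅ := by
      ext r
      simp [hP]
    rw [this]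
    exact Set.countable_empty
  · refine (Set.Finite.subset (P.roots.toFinset.finite_toSet) ?_).countable
    intro r hr
    rw [Finset.mem_coe, Multiset.mem_toFinset, mem_roots hP]
    exact hr.2

end

theorem pf_FCL : T_FCL := by
  intro K _ _ n s hn
  have hnt := al_nontrivial s hn
  have hinj : Function.Injective (algebraMap K (Al s)) := (algebraMap K (Al s)).injective
  refine ⟨Ph s, Ph_CP s hn, fun S₀ hS₀ hcl => ?_⟩
  have hsing : ∀ x ∈ S₀, Ph s {x} ⊆ S₀ := by
    intro x hx
    have := hcl {x} (by
      intro y hy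
      rw [Finset.coe_singleton, Set.mem_singleton_iff] at hy
      rw [hy]
      exact hx)
    rwa [Finset.coe_singleton] at this
  have hcoord : ∀ x ∈ S₀, ∀ l, algebraMap K (Al s) (x l) ∈ S₀ := by
    intro x hx l
    exact hsing x hx (Or.inl (Or.inr (Set.mem_iUnion.2 ⟨l, x, rfl, rfl⟩)))
  have heb : ∀ i, eb s i ∈ S₀ := fun i =>
    hsing 0 S₀.zero_mem (Or.inl (Or.inl ⟨i, rfl⟩))
  let K₀ : Subfield K :=
    { S₀.comap (algebraMap K (Al s)) with
      inv_mem' := by
        intro a ha
        exact hsing _ ha (Or.inr (Or.inl ⟨a, rfl, rfl⟩)) }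
  have hK₀ : ∀ a : K, a ∈ K₀ ↔ algebraMap K (Al s) a ∈ S₀ := fun a => Iff.rfl
  have hcl' : IsAlgClosed K₀ := by
    apply IsAlgClosed.of_exists_root
    intro p hp hirr
    have hdeg : (p.map K₀.subtype).degree ≠ 0 := by
      rw [degree_map]
      exact (degree_pos_of_irreducible hirr).ne'
    obtain ⟨r, hr⟩ := IsAlgClosed.exists_root (p.map K₀.subtype) hdeg
    have hne : p.map K₀.subtype ≠ 0 := (Polynomial.map_ne_zero_iff K₀.subtype.injective).2 hp.ne_zero
    classical
    let F : Finset (Al s) := insert 0 ((Finset.range (p.natDegree + 1)).image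
      fun j => algebraMap K (Al s) (p.coeff j : K))
    have hF : (F : Set (Al s)) ⊆ S₀ := by
      intro x hx
      rw [Finset.mem_coe, Finset.mem_insert, Finset.mem_image] at hx
      rcases hx with rfl | ⟨j, _, rfl⟩
      · exact S₀.zero_mem
      · exact (p.coeff j).2
    have hcoef : ∀ j, (p.map K₀.subtype).coeff j ∈ algebraMap K (Al s) ⁻¹' (F : Set (Al s)) := by
      intro j
      rw [coeff_map]
      change algebraMap K (Al s) (p.coeff j : K) ∈ (F : Set (Al s))
      rw [Finset.mem_coe, Finset.mem_insert, Finset.mem_image]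
      by_cases hj : j ≤ p.natDegree
      · exact Or.inr ⟨j, Finset.mem_range.2 (by omega), rfl⟩
      · left
        rw [coeff_eq_zero_of_natDegree_lt (not_le.1 hj)]
        simp
    have hrS : algebraMap K (Al s) r ∈ S₀ := hcl F hF (Or.inr (Or.inr
      (Set.mem_iUnion₂.2 ⟨p.map K₀.subtype, hcoef, r, ⟨hne, hr⟩, rfl⟩)))
    refine ⟨⟨r, hrS⟩, ?_⟩
    apply Subtype.ext
    have h1 : (p.map K₀.subtype).eval (K₀.subtype ⟨r, hrS⟩) = K₀.subtype (p.eval ⟨r, hrS⟩) :=
      Polynomial.eval_map_apply _ _
    have h2 : (p.map K₀.subtype).eval r = 0 := hr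
    have h3 : K₀.subtype (p.eval ⟨r, hrS⟩) = 0 := by
      rw [← h1]
      exact h2
    exact h3
  have hcount : Countable K₀ := by
    have hc : Countable S₀ := hS₀.to_subtype
    let f : K₀ → S₀ := fun a => ⟨algebraMap K (Al s) a, a.2⟩
    refine Function.Injective.countable (f := f) fun a b hab => ?_
    exact Subtype.ext (hinj (congrArg Subtype.val hab))
  have hcK : ∀ i j l, s.c i j l ∈ K₀ := fun i j l => by
    rw [← eb_mul s i j l]
    exact hcoord _ (S₀.mul_mem (heb i) (heb j)) l
  have huK : ∀ i, s.u i ∈ K₀ := fun i => hcoord 1 S₀.one_mem i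
  let s₀ : SC n K₀ :=
    { c := fun i j l => ⟨s.c i j l, hcK i j l⟩
      u := fun i => ⟨s.u i, huK i⟩
      one_mul := fun i l => by
        apply Subtype.ext
        have h := s.one_mul i l
        push_cast
        rw [h]
        split_ifs <;> rfl
      mul_one := fun i l => by
        apply Subtype.ext
        have h := s.mul_one i l
        push_cast
        rw [h]
        split_ifs <;> rfl
      assoc := fun i j t l => by
        apply Subtype.ext
        have h := s.assoc i j t l
        push_cast
        exact h }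
  refine ⟨K₀, inferInstance, hcl', hcount, s₀, ⟨?_⟩⟩
  refine
    { toFun := fun x => fun l => ⟨x.1 l, hcoord x.1 x.2 l⟩
      invFun := fun y => ⟨fun l => ((y l : K₀) : K), ?_⟩
      left_inv := fun x => rfl
      right_inv := fun y => rfl
      map_mul' := fun x y => ?_
      map_add' := fun x y => rfl }
  · have h := al_expand s (fun l => ((y l : K₀) : K))
    rw [h]
    refine S₀.sum_mem fun l _ => S₀.mul_mem ?_ (heb l)
    exact (y l).2
  · apply al_ext
    intro l
    apply Subtype.ext
    rw [al_mul]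
    push_cast
    exact al_mul s x.1 y.1 l

end Pool.Agent.H35.UB
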