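import Pool.Agent.H8.UB.Targets

/-!
# Board `ubd_modules`, row LSG, part 1: countable closures
-/

open CategoryTheory

set_option autoImplicit false

namespace Pool.Agent.H35.UB

open Pool.Agent.H8.UB Pool.Agent.H56.UDs

universe u

/-- Countable closure under a finitary operator. -/
theorem exists_closure {U : Type u} (C₀ : Set U) (h₀ : C₀.Countable) (Ψ : Set U → Set U)
    (hΨ : ∀ F : Set U, F.Finite → (Ψ F).Countable) :
    ∃ C : Set U, C₀ ⊆ C ∧ C.Countable ∧ ∀ F : Set U, F.Finite → F ⊆ C → Ψ F ⊆ C := by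
  let step : Set U → Set U := fun C => C ∪ ⋃ F ∈ {F : Set U | F.Finite ∧ F ⊆ C}, Ψ F
  let seq : ℕ → Set U := fun n => step^[n] C₀
  have hstep : ∀ C : Set U, C.Countable → (step C).Countable := by
    intro C hC
    refine hC.union (Set.Countable.biUnion (Set.countable_ofPred_finite_subset hC) ?_)
    intro F hF
    exact hΨ F hF.1
  have hseq : ∀ n, (seq n).Countable := by
    intro n
    induction n with
    | zero => exact h₀
    | succ n ih =>
      have : seq (n + 1) = step (seq n) := Function.iterate_succ_apply' step n C₀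
      rw [this]
      exact hstep _ ih
  have hsucc : ∀ n, seq (n + 1) = step (seq n) := fun n => Function.iterate_succ_apply' step n C₀
  have hmono : Monotone seq := by
    refine monotone_nat_of_le_succ fun n => ?_
    rw [hsucc]
    exact Set.subset_union_left
  refine ⟨⋃ n, seq n, Set.subset_iUnion seq 0, Set.countable_iUnion hseq, ?_⟩
  intro F hF hFC
  obtain ⟨n, hn⟩ : ∃ n, F ⊆ seq n := by
    induction F, hF using Set.Finite.induction_on with
    | empty => exact ⟨0, Set.empty_subset _⟩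
    | @insert a F _ _ ih =>
      obtain ⟨n, hn⟩ := ih (fun x hx => hFC (Set.mem_insert_of_mem _ hx))
      obtain ⟨m, hm⟩ := Set.mem_iUnion.1 (hFC (Set.mem_insert a F))
      refine ⟨max n m, Set.insert_subset (hmono (le_max_right n m) hm)
        (hn.trans (hmono (le_max_left n m)))⟩
  intro x hx
  refine Set.mem_iUnion.2 ⟨n + 1, ?_⟩
  rw [hsucc]
  exact Or.inr (Set.mem_iUnion₂.2 ⟨F, ⟨hF, hn⟩, hx⟩)

section

variable {S : Type}

/-- The entries of a formula. -/
def ent [Ring S] (c : Cd S) : Set S :=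
  Set.range c.a ∪ Set.range fun p : Fin c.m × Fin c.n => c.b p.1 p.2

theorem ent_finite [Ring S] (c : Cd S) : (ent c).Finite :=
  (Set.finite_range _).union (Set.finite_range _)

theorem codes_countable [Ring S] (A : Set S) (hA : A.Countable) :
    {c : Cd S | ent c ⊆ A}.Countable := by
  have : Countable A := hA.to_subtype
  let f : (Σ n : ℕ, Σ m : ℕ, (Fin m → A) × (Fin m → Fin n → A)) → Cd S :=
    fun x => ⟨x.1, x.2.1, fun j => (x.2.2.1 j : S), fun j i => (x.2.2.2 j i : S)⟩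
  refine (Set.countable_range f).mono ?_
  intro c hc
  refine ⟨⟨c.n, c.m, fun j => ⟨c.a j, hc (Or.inl ⟨j, rfl⟩)⟩,
    fun j i => ⟨c.b j i, hc (Or.inr ⟨(j, i), rfl⟩)⟩⟩, rfl⟩

theorem exists_lift [Ring S] (S₀ : Subring S) (c : Cd S) (hc : ent c ⊆ S₀) :
    ∃ c' : Cd S₀, c'.map S₀.subtype = c :=
  ⟨⟨c.n, c.m, fun j => ⟨c.a j, hc (Or.inl ⟨j, rfl⟩)⟩,
    fun j i => ⟨c.b j i, hc (Or.inr ⟨(j, i), rfl⟩)⟩⟩, rfl⟩

theorem ent_map [Ring S] (S₀ : Subring S) (c : Cd S₀) : ent (c.map S₀.subtype) ⊆ S₀ := by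
  rintro x (⟨j, rfl⟩ | ⟨p, rfl⟩)
  · exact (c.a j).2
  · exact (c.b p.1 p.2).2

/-- A countable subring and a countable set of ordinals closed under everything. -/
theorem exists_closed [Ring S] (X : Set Ordinal.{0}) (hX : X.Countable) (Φ : Set S → Set S)
    (hΦ : CP Φ) (W : Ordinal.{0} → Cd S → Cd S → Set S) (O : Ordinal.{0} → Cd S → Cd S →
      Set Ordinal.{0}) (hW : ∀ β c d, (W β c d).Finite) (hO : ∀ β c d, (O β c d).Finite) :
    ∃ (S₀ : Subring S) (B : Set Ordinal.{0}), (S₀ : Set S).Countable ∧ B.Countable ∧ X ⊆ B ∧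
      Cl Φ S₀ ∧ ∀ β ∈ B, ∀ c d : Cd S, ent c ⊆ S₀ → ent d ⊆ S₀ →
        W β c d ⊆ S₀ ∧ O β c d ⊆ B := by
  let U : Type 1 := S ⊕ Ordinal.{0}
  let il : S → U := Sum.inl
  let ir : Ordinal.{0} → U := Sum.inr
  let fs : Set U → Set S := fun F => il ⁻¹' F
  let fo : Set U → Set Ordinal.{0} := fun F => ir ⁻¹' F
  let Ψ : Set U → Set U := fun F =>
    (il '' ({0, 1} ∪ (Set.image2 (fun x y => x + y) (fs F) (fs F) ∪
      Set.image2 (fun x y => x * y) (fs F) (fs F) ∪ (fun x => -x) '' (fs F))) ∪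
    il '' Φ (fs F)) ∪
    ⋃ β ∈ fo F, ⋃ c ∈ {c : Cd S | ent c ⊆ fs F}, ⋃ d ∈ {c : Cd S | ent c ⊆ fs F},
      (il '' W β c d ∪ ir '' O β c d)
  have hΨ : ∀ F : Set U, F.Finite → (Ψ F).Countable := by
    intro F hF
    have h1 : (fs F).Finite := hF.preimage (Sum.inl_injective.injOn)
    have h2 : (fo F).Finite := hF.preimage (Sum.inr_injective.injOn)
    refine ((Set.Finite.countable ?_).union ((hΦ _ h1.countable).image _)).union ?_
    · refine Set.Finite.image _ (((Set.finite_singleton 1).insert 0).union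
        (((h1.image2 _ h1).union (h1.image2 _ h1)).union (h1.image _)))
    · refine h2.countable.biUnion fun β _ => ?_
      refine (codes_countable _ h1.countable).biUnion fun c _ => ?_
      refine (codes_countable _ h1.countable).biUnion fun d _ => ?_
      exact ((hW β c d).image _).countable.union ((hO β c d).image _).countable
  obtain ⟨C, hC0, hCc, hC⟩ := exists_closure (ir '' X) (hX.image _) Ψ hΨ
  have hmem : ∀ F : Set U, F.Finite → F ⊆ C → ∀ x ∈ Ψ F, x ∈ C := fun F h1 h2 x hx => hC F h1 h2 hx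
  have hz : il 0 ∈ C := hmem ∅ Set.finite_empty (Set.empty_subset _) _
    (Or.inl (Or.inl ⟨0, Or.inl (Or.inl rfl), rfl⟩))
  have ho : il 1 ∈ C := hmem ∅ Set.finite_empty (Set.empty_subset _) _
    (Or.inl (Or.inl ⟨1, Or.inl (Or.inr rfl), rfl⟩))
  have hpair : ∀ x y : S, il x ∈ C → il y ∈ C →
      ({il x, il y} : Set U).Finite ∧ ({il x, il y} : Set U) ⊆ C := by
    intro x y hx hy
    refine ⟨(Set.finite_singleton _).insert _, ?_⟩
    rintro z (rfl | rfl)
    · exact hx
    · exact hy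
  let S₀ : Subring S :=
    { carrier := il ⁻¹' C
      mul_mem' := by
        intro x y hx hy
        obtain ⟨h1, h2⟩ := hpair x y hx hy
        exact hmem _ h1 h2 _ (Or.inl (Or.inl ⟨x * y, Or.inr (Or.inl (Or.inr
          ⟨x, Or.inl rfl, y, Or.inr rfl, rfl⟩)), rfl⟩))
      one_mem' := ho
      add_mem' := by
        intro x y hx hy
        obtain ⟨h1, h2⟩ := hpair x y hx hy
        exact hmem _ h1 h2 _ (Or.inl (Or.inl ⟨x + y, Or.inr (Or.inl (Or.inl
          ⟨x, Or.inl rfl, y, Or.inr rfl, rfl⟩)), rfl⟩))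
      zero_mem' := hz
      neg_mem' := by
        intro x hx
        obtain ⟨h1, h2⟩ := hpair x x hx hx
        exact hmem _ h1 h2 _ (Or.inl (Or.inl ⟨-x, Or.inr (Or.inr ⟨x, Or.inl rfl, rfl⟩), rfl⟩)) }
  refine ⟨S₀, ir ⁻¹' C, hCc.preimage_of_injOn Sum.inl_injective.injOn,
    hCc.preimage_of_injOn Sum.inr_injective.injOn, fun x hx => hC0 ⟨x, hx, rfl⟩, ?_, ?_⟩
  · intro F hF x hx
    have h1 : (il '' (F : Set S)).Finite := F.finite_toSet.image _
    have h2 : il '' (F : Set S) ⊆ C := by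
      rintro _ ⟨y, hy, rfl⟩
      exact hF hy
    have h3 : fs (il '' (F : Set S)) = F := Set.preimage_image_eq _ Sum.inl_injective
    refine hmem _ h1 h2 _ (Or.inl (Or.inr ⟨x, ?_, rfl⟩))
    rw [h3]
    exact hx
  · intro β hβ c d hc hd
    let F : Set U := (il '' ent c ∪ il '' ent d) ∪ {ir β}
    have h1 : F.Finite := (((ent_finite c).image _).union ((ent_finite d).image _)).union
      (Set.finite_singleton _)
    have h2 : F ⊆ C := by
      rintro _ ((⟨y, hy, rfl⟩ | ⟨y, hy, rfl⟩) | rfl)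
      · exact hc hy
      · exact hd hy
      · exact hβ
    have hcF : ent c ⊆ fs F := fun y hy => Or.inl (Or.inl ⟨y, hy, rfl⟩)
    have hdF : ent d ⊆ fs F := fun y hy => Or.inl (Or.inr ⟨y, hy, rfl⟩)
    have hβF : β ∈ fo F := Or.inr rfl
    have key : ∀ x ∈ (il '' W β c d ∪ ir '' O β c d), x ∈ C := by
      intro x hx
      refine hmem F h1 h2 x (Or.inr ?_)
      refine Set.mem_iUnion₂.2 ⟨β, hβF, Set.mem_iUnion₂.2 ⟨c, hcF, Set.mem_iUnion₂.2 ⟨d, hdF, hx⟩⟩⟩
    exact ⟨fun x hx => key _ (Or.inl ⟨x, hx, rfl⟩), fun x hx => key _ (Or.inr ⟨x, hx, rfl⟩)⟩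

end

end Pool.Agent.H35.UB
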