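import Pool.Agent.H35.UB.CLO

/-!
# Board `ubd_modules`, row LSG: Loewenheim-Skolem for the uniserial dimension
-/

open CategoryTheory

set_option autoImplicit false

namespace Pool.Agent.H35.UB

open Pool.Agent.H8.UB Pool.Agent.H56.UDs

theorem rk_iff {L : Type 1} [Lattice L] [BoundedOrder L] (ρ : Ordinal.{0}) :
    rk.{0} L = (ρ : WithTop Ordinal.{0}) ↔
      St (ρ + 1) (⊥ : L) ⊤ ∧ ∀ α, α < ρ → ¬ St (α + 1) (⊥ : L) ⊤ := by
  classical
  unfold rk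
  constructor
  · intro h
    split_ifs at h with hex
    · have h1 := WithTop.coe_injective h
      have h2 : sInf {α : Ordinal.{0} | St (α + 1) (⊥ : L) ⊤} ∈
          {α : Ordinal.{0} | St (α + 1) (⊥ : L) ⊤} := csInf_mem hex
      rw [h1] at h2
      refine ⟨h2, fun α hα hS => ?_⟩
      have h3 : sInf {α : Ordinal.{0} | St (α + 1) (⊥ : L) ⊤} ≤ α := csInf_le' hS
      rw [h1] at h3
      exact absurd hα (not_lt.2 h3)
    · exact absurd h WithTop.top_ne_coe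
  · rintro ⟨h1, h2⟩
    rw [if_pos ⟨ρ, h1⟩]
    congr 1
    apply le_antisymm
    · exact csInf_le' h1
    · refine le_csInf ⟨ρ, h1⟩ fun α hα => ?_
      by_contra hc
      exact h2 α (not_le.1 hc) hα

theorem pf_LSG (hLAB : T_LAB.{0, 1}) (hLAC : T_LAC.{1, 1}) (hCOL : T_COL) (hMOC : T_MOC)
    (hMOU : T_MOU) (hCDG : T_CDG) (hCDE : T_CDE) (hCDL : T_CDL) (hCDM : T_CDM) : T_LSG := by
  classical
  intro S _ _ _ _ ρ hρ X hX hXρ Φ hΦ
  set eS : Cd S → LL (UF S) := fun c => mkLL c.fn ((hCDG S).1 c) with heS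
  have hcode : ∀ a : LL (UF S), ∃ c, eS c = a := fun a => by
    obtain ⟨c, hc⟩ := hCDE S a.1 a.2
    exact ⟨c, Subtype.ext hc⟩
  obtain ⟨hL1, hL2, hL3, hL4, hL5, hL6, hL7⟩ := hLAB (LL (UF S))
  -- the three kinds of witnesses
  have hP1 : ∀ (β : Ordinal.{0}) (c d : Cd S), ∃ K : Set (Cd S), K.Finite ∧
      (¬ Un β (eS c) (eS d) → ∃ x ∈ K, ∃ y ∈ K, eS c ≤ eS x ∧ eS x ≤ eS d ∧ eS c ≤ eS y ∧
        eS y ≤ eS d ∧ ¬ St β (eS x ⊓ eS y) (eS x) ∧ ¬ St β (eS x ⊓ eS y) (eS y)) := by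
    intro β c d
    by_cases h : Un β (eS c) (eS d)
    · exact ⟨∅, Set.finite_empty, fun h' => absurd h h'⟩
    · have h' := h
      unfold Un at h'
      push Not at h'
      obtain ⟨x, y, h1, h2, h3, h4, h5, h6⟩ := h'
      obtain ⟨kx, rfl⟩ := hcode x
      obtain ⟨ky, rfl⟩ := hcode y
      exact ⟨{kx, ky}, (Set.finite_singleton _).insert _, fun _ => ⟨kx, Or.inl rfl, ky,
        Or.inr rfl, h1, h2, h3, h4, h5, h6⟩⟩
  let R : Set (Cd S) → Set Ordinal.{0} → Ordinal.{0} → LL (UF S) → LL (UF S) → Prop :=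
    fun K O β a b => a ≤ b ∧ (∃ k ∈ K, eS k = a) ∧ (∃ k ∈ K, eS k = b) ∧
      ∃ γ ∈ O, γ < β ∧ Un γ a b
  have hRmono : ∀ (K K' : Set (Cd S)) (O O' : Set Ordinal.{0}) (β : Ordinal.{0})
      (a b : LL (UF S)), K ⊆ K' → O ⊆ O' → R K O β a b → R K' O' β a b := by
    rintro K K' O O' β a b hK hO ⟨h1, ⟨k, hk, hk'⟩, ⟨l, hl, hl'⟩, γ, hγ, hγ'⟩
    exact ⟨h1, ⟨k, hK hk, hk'⟩, ⟨l, hK hl, hl'⟩, γ, hO hγ, hγ'⟩
  have hP2a : ∀ (β : Ordinal.{0}) (a b : LL (UF S)), Relation.ReflTransGen (Sp β) a b →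
      ∃ (K : Set (Cd S)) (O : Set Ordinal.{0}), K.Finite ∧ O.Finite ∧
        Relation.ReflTransGen (R K O β) a b := by
    intro β a b h
    induction h with
    | refl => exact ⟨∅, ∅, Set.finite_empty, Set.finite_empty, Relation.ReflTransGen.refl⟩
    | @tail b c _ hbc ih =>
      obtain ⟨K, O, hK, hO, hR⟩ := ih
      obtain ⟨hle, γ, hγ, hu⟩ := hbc
      obtain ⟨kb, hkb⟩ := hcode b
      obtain ⟨kc, hkc⟩ := hcode c
      refine ⟨insert kb (insert kc K), insert γ O, (hK.insert _).insert _, hO.insert _, ?_⟩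
      refine Relation.ReflTransGen.tail (Relation.ReflTransGen.mono (fun x y hxy => ?_) _ _ hR) ?_
      · exact hRmono _ _ _ _ _ _ _ ((Set.subset_insert _ _).trans (Set.subset_insert _ _))
          (Set.subset_insert _ _) hxy
      · exact ⟨hle, ⟨kb, Set.mem_insert _ _, hkb⟩,
          ⟨kc, Set.mem_insert_of_mem _ (Set.mem_insert _ _), hkc⟩, γ, Set.mem_insert _ _, hγ, hu⟩
  have hP2 : ∀ (β : Ordinal.{0}) (c d : Cd S), ∃ (K : Set (Cd S)) (O : Set Ordinal.{0}),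
      K.Finite ∧ O.Finite ∧ (St β (eS c) (eS d) →
        Relation.ReflTransGen (R K O β) (eS c) (eS d)) := by
    intro β c d
    by_cases h : St β (eS c) (eS d)
    · obtain ⟨K, O, h1, h2, h3⟩ := hP2a β _ _ ((hL1 β _ _).1 h)
      exact ⟨K, O, h1, h2, fun _ => h3⟩
    · exact ⟨∅, ∅, Set.finite_empty, Set.finite_empty, fun h' => absurd h' h⟩
  have hP3 : ∀ (c d : Cd S), ∃ A : Set S, A.Finite ∧ (MC c d →
      ∃ (p : Fin d.n → S) (q : Fin d.n → Fin c.n → S) (z : Fin d.m → Fin c.m → S),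
        (∀ i, p i ∈ A) ∧ (∀ i t, q i t ∈ A) ∧ (∀ j l, z j l ∈ A) ∧
        (∀ j, d.a j + ∑ i, d.b j i * p i = ∑ l, z j l * c.a l) ∧
        ∀ j t, ∑ i, d.b j i * q i t = ∑ l, z j l * c.b l t) := by
    intro c d
    by_cases h : MC c d
    · obtain ⟨p, q, z, h1, h2⟩ := h
      refine ⟨(Set.range p ∪ Set.range fun x : Fin d.n × Fin c.n => q x.1 x.2) ∪
        Set.range fun x : Fin d.m × Fin c.m => z x.1 x.2,
        ((Set.finite_range _).union (Set.finite_range _)).union (Set.finite_range _),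
        fun _ => ⟨p, q, z, fun i => Or.inl (Or.inl ⟨i, rfl⟩),
          fun i t => Or.inl (Or.inr ⟨(i, t), rfl⟩), fun j l => Or.inr ⟨(j, l), rfl⟩, h1, h2⟩⟩
    · exact ⟨∅, Set.finite_empty, fun h' => absurd h' h⟩
  choose K1 hK1 hW1 using hP1
  choose K2 O2 hK2 hO2 hW2 using hP2
  choose A3 hA3 hW3 using hP3
  let W : Ordinal.{0} → Cd S → Cd S → Set S := fun β c d =>
    (⋃ k ∈ K1 β c d ∪ K2 β c d, ent k) ∪ A3 c d
  have hWf : ∀ β c d, (W β c d).Finite := fun β c d =>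
    (Set.Finite.biUnion ((hK1 β c d).union (hK2 β c d)) fun k _ => ent_finite k).union (hA3 c d)
  obtain ⟨S₀, B, hS₀, hB, hXB, hCl, hcl⟩ := exists_closed (X ∪ {ρ, ρ + 1})
    (hX.union ((Set.finite_singleton _).insert _).countable) Φ hΦ W O2 hWf hO2
  have hρB : ρ ∈ B := hXB (Or.inr (Or.inl rfl))
  have hρB1 : ρ + 1 ∈ B := hXB (Or.inr (Or.inr rfl))
  refine ⟨S₀, hS₀, hCl, fun hN => ?_⟩
  have hcoh : Coh (FGModuleCat.{0} S₀) := (hMOC S₀).1
  have hfp : Fact (IsFP (UF S₀)) := ⟨(hMOC S₀).2.1⟩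
  -- change of rings
  have hMC : ∀ c d : Cd S₀, MC (c.map S₀.subtype) (d.map S₀.subtype) → MC c d := by
    intro c d h
    obtain ⟨p, q, z, hp, hq, hz, h1, h2⟩ := hW3 _ _ h
    have hA : A3 (c.map S₀.subtype) (d.map S₀.subtype) ⊆ S₀ := fun x hx =>
      (hcl ρ hρB _ _ (ent_map S₀ c) (ent_map S₀ d)).1 (Or.inr hx)
    refine ⟨fun i => ⟨p i, hA (hp i)⟩, fun i t => ⟨q i t, hA (hq i t)⟩,
      fun j l => ⟨z j l, hA (hz j l)⟩, fun j => ?_, fun j t => ?_⟩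
    · apply Subtype.ext
      have := h1 j
      push_cast
      exact this
    · apply Subtype.ext
      have := h2 j t
      push_cast
      exact this
  obtain ⟨e, hinf, _, hle, hbot, htop, hfn⟩ := hCDM S₀ S S₀.subtype hMC
  have hlift : ∀ k : Cd S, ent k ⊆ S₀ → ∃ m : LL (UF S₀), e m = eS k := by
    intro k hk
    obtain ⟨k', rfl⟩ := exists_lift S₀ k hk
    obtain ⟨h, h', he⟩ := hfn k'
    exact ⟨_, he⟩
  have hcodeM : ∀ m : LL (UF S₀), ∃ k : Cd S, ent k ⊆ S₀ ∧ e m = eS k := by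
    intro m
    obtain ⟨k', hk'⟩ := hCDE S₀ m.1 m.2
    obtain ⟨h, h', he⟩ := hfn k'
    have hm : m = mkLL k'.fn h := Subtype.ext hk'.symm
    refine ⟨k'.map S₀.subtype, ent_map S₀ k', ?_⟩
    rw [hm]
    exact he
  have hinj : ∀ m m' : LL (UF S₀), e m = e m' → m = m' := fun m m' h =>
    le_antisymm ((hle _ _).1 h.le) ((hle _ _).1 h.ge)
  obtain ⟨π, hπ1, hπ2, hπ3, hπ4, hπ5⟩ := hCOL B
  have hmain := hLAC (LL (UF S₀)) (LL (UF S)) e B π hinf hle hπ1 hπ2 ?_ ?_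
  · -- the rank
    have hrk := (rk_iff ρ).1 hρ
    have hπρ : π (ρ + 1) = π ρ + 1 := by
      apply le_antisymm
      · by_contra hc
        obtain ⟨γ, hγ, hγ1, hγ2⟩ := hπ2 (ρ + 1) hρB1 _ (not_le.1 hc)
        have h1 : γ ≤ ρ := Order.lt_add_one_iff.1 hγ1
        rcases h1.eq_or_lt with h2 | h2
        · rw [h2] at hγ2
          exact absurd (lt_add_one (π ρ)) (by rw [← hγ2]; exact lt_irrefl _)
        · have h3 := hπ1 γ hγ ρ hρB h2
          rw [hγ2] at h3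
          exact absurd (lt_add_one (π ρ)) (not_lt.2 h3.le)
      · exact Order.add_one_le_of_lt (hπ1 ρ hρB (ρ + 1) hρB1 (lt_add_one ρ))
    refine ⟨π ρ, ?_, hπ4 hB ρ hρB, hπ3 ρ, ?_⟩
    · rw [hMOU S₀]
      rw [rk_iff]
      constructor
      · rw [← hπρ, hmain (ρ + 1) hρB1, hbot, htop]
        exact hrk.1
      · intro α hα hSt
        have h1 : α + 1 ≤ π ρ := Order.add_one_le_of_lt hα
        obtain ⟨δ, hδB, hδρ, hδ⟩ : ∃ δ ∈ B, δ ≤ ρ ∧ π δ = α + 1 := by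
          rcases h1.eq_or_lt with h2 | h2
          · exact ⟨ρ, hρB, le_rfl, h2.symm⟩
          · obtain ⟨δ, h3, h4, h5⟩ := hπ2 ρ hρB _ h2
            exact ⟨δ, h3, h4.le, h5⟩
        rw [← hδ, hmain δ hδB, hbot, htop] at hSt
        rcases hL7 δ _ _ hSt with h2 | ⟨β, hβ, hβ2⟩
        · have h3 : ρ = 0 := by
            by_contra hne
            have h4 : (0 : Ordinal.{0}) < ρ := pos_iff_ne_zero.2 hne
            apply hrk.2 0 h4
            rw [hL1, h2]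
          have h5 := hα.trans_le (hπ3 ρ)
          rw [h3] at h5
          exact absurd h5 not_lt_zero
        · exact hrk.2 β (hβ.trans_le hδρ) hβ2
    · intro γ hγ hall
      exact hπ5 γ ρ (fun δ hδ => hXB (Or.inl (hall δ hδ))) hγ
  · -- witnesses of non-uniseriality
    intro β hβ c d hcd hU
    obtain ⟨kc, hkc, hec⟩ := hcodeM c
    obtain ⟨kd, hkd, hed⟩ := hcodeM d
    rw [hec, hed] at hU
    obtain ⟨x, hx, y, hy, h1, h2, h3, h4, h5, h6⟩ := hW1 β kc kd hU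
    have hxS : ent x ⊆ S₀ := fun s hs => (hcl β hβ kc kd hkc hkd).1
      (Or.inl (Set.mem_iUnion₂.2 ⟨x, Or.inl hx, hs⟩))
    have hyS : ent y ⊆ S₀ := fun s hs => (hcl β hβ kc kd hkc hkd).1
      (Or.inl (Set.mem_iUnion₂.2 ⟨y, Or.inl hy, hs⟩))
    obtain ⟨mx, hmx⟩ := hlift x hxS
    obtain ⟨my, hmy⟩ := hlift y hyS
    refine ⟨mx, my, ?_, ?_, ?_, ?_, ?_, ?_⟩
    · rw [← hle, hec, hmx]; exact h1
    · rw [← hle, hed, hmx]; exact h2
    · rw [← hle, hec, hmy]; exact h3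
    · rw [← hle, hed, hmy]; exact h4
    · rw [hinf, hmx, hmy]; exact h5
    · rw [hinf, hmx, hmy]; exact h6
  · -- witnesses of chains
    intro β hβ c d hSt
    obtain ⟨kc, hkc, hec⟩ := hcodeM c
    obtain ⟨kd, hkd, hed⟩ := hcodeM d
    have hSt' := hSt
    rw [hec, hed] at hSt'
    have hchain := hW2 β kc kd hSt'
    have hO : O2 β kc kd ⊆ B := (hcl β hβ kc kd hkc hkd).2
    have hK : ∀ k ∈ K2 β kc kd, ent k ⊆ S₀ := fun k hk s hs => (hcl β hβ kc kd hkc hkd).1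
      (Or.inl (Set.mem_iUnion₂.2 ⟨k, Or.inr hk, hs⟩))
    have key : ∀ b : LL (UF S), Relation.ReflTransGen (R (K2 β kc kd) (O2 β kc kd) β) (eS kc) b →
        ∃ m, e m = b ∧ Relation.ReflTransGen
          (fun a b : LL (UF S₀) => a ≤ b ∧ ∃ γ ∈ B, γ < β ∧ Un γ (e a) (e b)) c m := by
      intro b hb
      induction hb with
      | refl => exact ⟨c, hec, Relation.ReflTransGen.refl⟩
      | @tail b b' _ hbb' ih =>
        obtain ⟨m, hm, hchm⟩ := ih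
        obtain ⟨hle', _, ⟨k, hk, hk'⟩, γ, hγ, hγβ, hγu⟩ := hbb'
        obtain ⟨m', hm'⟩ := hlift k (hK k hk)
        rw [hk'] at hm'
        refine ⟨m', hm', hchm.tail ⟨?_, γ, hO hγ, hγβ, ?_⟩⟩
        · rw [← hle, hm, hm']
          exact hle'
        · rw [hm, hm']
          exact hγu
    obtain ⟨m, hm, hch⟩ := key _ hchain
    have : m = d := hinj _ _ (by rw [hm, hed])
    rw [← this]
    exact hch

end Pool.Agent.H35.UB
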