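import Pool.Agent.H35.UB.CLO

/-!
# Board `ubd_modules`, row ORB: values over one algebraically closed field are countable
-/

open CategoryTheory

set_option autoImplicit false

namespace Pool.Agent.H35.UB

open Pool.Agent.H8.UB Pool.Agent.H56.UDs

theorem countable_ideal (R : Type) [CommRing R] [IsNoetherianRing R] [Countable R] :
    Countable (Ideal R) := by
  have : Function.Surjective (fun F : Finset R => Ideal.span (F : Set R)) := by
    intro I
    obtain ⟨F, hF⟩ := (isNoetherianRing_iff_ideal_fg R).1 inferInstance I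
    exact ⟨F, hF⟩
  exact this.countable

theorem countable_mv (N : ℕ) : Countable (MvPolynomial (Fin N) ℤ) := by
  rw [← Cardinal.mk_le_aleph0_iff]
  refine (MvPolynomial.cardinalMk_le_max (σ := Fin N) (R := ℤ)).trans ?_
  simp only [Cardinal.mk_int, Cardinal.mk_fin, max_le_iff, le_refl, true_and, and_true]
  exact Cardinal.natCast_lt_aleph0.le

theorem MC_map {S T : Type} [Ring S] [Ring T] (f : S →+* T) {c d : Cd S} (h : MC c d) :
    MC (c.map f) (d.map f) := by
  obtain ⟨p, q, z, h1, h2⟩ := h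
  refine ⟨fun i => f (p i), fun i t => f (q i t), fun j l => f (z j l), fun j => ?_,
    fun j t => ?_⟩
  · have h := congrArg f (h1 j)
    rw [map_add, map_sum, map_sum] at h
    simp only [map_mul] at h
    exact h
  · have h := congrArg f (h2 j t)
    rw [map_sum, map_sum] at h
    simp only [map_mul] at h
    exact h

section

variable {n : ℕ} {K : Type} [Field K] (s : SC n K)

/-- The automorphism of the algebra induced by an automorphism of the field which fixes the
structure constants. -/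
noncomputable def tau (σ : K →+* K) (h1 : ∀ i j l, σ (s.c i j l) = s.c i j l)
    (h2 : ∀ i, σ (s.u i) = s.u i) : Al s →+* Al s where
  toFun x l := σ (x l)
  map_one' := al_ext s fun l => h2 l
  map_mul' x y := al_ext s fun l => by
    change σ ((x * y) l) = _
    rw [al_mul, al_mul, map_sum]
    refine Finset.sum_congr rfl fun i _ => ?_
    rw [map_sum]
    refine Finset.sum_congr rfl fun j _ => ?_
    rw [map_mul, map_mul, h1]
  map_zero' := al_ext s fun _ => map_zero σ
  map_add' x y := al_ext s fun l => map_add σ (x l) (y l)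

/-- The shapes of two formulas. -/
abbrev Sh : Type := (ℕ × ℕ) × (ℕ × ℕ)

/-- The entries of two formulas of given shape. -/
abbrev Tp (sh : Sh) : Type := ((Fin sh.1.2 → Al s) × (Fin sh.1.2 → Fin sh.1.1 → Al s)) ×
  ((Fin sh.2.2 → Al s) × (Fin sh.2.2 → Fin sh.2.1 → Al s))

/-- The first formula. -/
def c1 (sh : Sh) (t : Tp s sh) : Cd (Al s) := ⟨sh.1.1, sh.1.2, t.1.1, t.1.2⟩

/-- The second formula. -/
def c2 (sh : Sh) (t : Tp s sh) : Cd (Al s) := ⟨sh.2.1, sh.2.2, t.2.1, t.2.2⟩

/-- The index set of all coordinates. -/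
abbrev Jx (n : ℕ) (sh : Sh) : Type := ((Fin n × Fin n × Fin n) ⊕ Fin n) ⊕
  (((Fin sh.1.2 × Fin n) ⊕ (Fin sh.1.2 × Fin sh.1.1 × Fin n)) ⊕
    ((Fin sh.2.2 × Fin n) ⊕ (Fin sh.2.2 × Fin sh.2.1 × Fin n)))

/-- All coordinates. -/
def xt (sh : Sh) (t : Tp s sh) : Jx n sh → K
  | .inl (.inl p) => s.c p.1 p.2.1 p.2.2
  | .inl (.inr i) => s.u i
  | .inr (.inl (.inl p)) => t.1.1 p.1 p.2
  | .inr (.inl (.inr p)) => t.1.2 p.1 p.2.1 p.2.2
  | .inr (.inr (.inl p)) => t.2.1 p.1 p.2
  | .inr (.inr (.inr p)) => t.2.2 p.1 p.2.1 p.2.2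

/-- The integral polynomials which vanish at the coordinates. -/
noncomputable def Idl (sh : Sh) (t : Tp s sh) :
    Ideal (MvPolynomial (Fin (Fintype.card (Jx n sh))) ℤ) :=
  RingHom.ker (MvPolynomial.aeval (R := ℤ)
    (fun i => xt s sh t ((Fintype.equivFin (Jx n sh)).symm i)) :
      MvPolynomial (Fin (Fintype.card (Jx n sh))) ℤ →ₐ[ℤ] K)

theorem exists_sigma (hAUT : T_AUT) [IsAlgClosed K] (hK : ¬ Countable K) (sh : Sh)
    (t t' : Tp s sh) (h : Idl s sh t = Idl s sh t') :
    ∃ σ : K ≃+* K, ∀ j, σ (xt s sh t j) = xt s sh t' j := by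
  obtain ⟨σ, hσ⟩ := hAUT K hK (Fintype.card (Jx n sh))
    (fun i => xt s sh t ((Fintype.equivFin (Jx n sh)).symm i))
    (fun i => xt s sh t' ((Fintype.equivFin (Jx n sh)).symm i)) (by
      intro P
      have h1 : P ∈ Idl s sh t ↔ P ∈ Idl s sh t' := by rw [h]
      unfold Idl at h1
      rw [RingHom.mem_ker, RingHom.mem_ker] at h1
      exact h1)
  refine ⟨σ, fun j => ?_⟩
  have := hσ (Fintype.equivFin (Jx n sh) j)
  simpa using this

end

theorem noeth {n : ℕ} {K : Type} [Field K] (s : SC n K) : IsNoetherianRing (Al s) :=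
  IsNoetherianRing.of_finite K (Al s)

theorem transfer (hLAI : T_LAI.{0, 1, 1}) (hCDG : T_CDG) (hCDE : T_CDE) (hCDM : T_CDM)
    (S : Type) [Ring S] [IsNoetherianRing S] [Coh (FGModuleCat.{0} S)] [Fact (IsFP (UF S))]
    (f g : S →+* S) (hfg : ∀ x, g (f x) = x) (hgf : ∀ x, f (g x) = x) (c d : Cd S)
    (β : Ordinal.{0}) (h : St β (mkLL c.fn ((hCDG S).1 c)) (mkLL d.fn ((hCDG S).1 d))) :
    St β (mkLL (c.map f).fn ((hCDG S).1 _)) (mkLL (d.map f).fn ((hCDG S).1 _)) := by
  have hcomp : ∀ (f g : S →+* S), (∀ x, g (f x) = x) → ∀ c : Cd S, (c.map f).map g = c := by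
    intro f g hfg c
    rcases c with ⟨n, m, a, b⟩
    unfold Cd.map
    simp only [hfg]
  have hrefl : ∀ (f g : S →+* S), (∀ x, g (f x) = x) → ∀ c d : Cd S,
      MC (c.map f) (d.map f) → MC c d := by
    intro f g hfg c d h
    have := MC_map g h
    rwa [hcomp f g hfg, hcomp f g hfg] at this
  obtain ⟨e, _, _, hle, _, _, hfn⟩ := hCDM S S f (hrefl f g hfg)
  obtain ⟨e', _, _, hle', _, _, hfn'⟩ := hCDM S S g (hrefl g f hgf)
  have hinv : ∀ (f g : S →+* S) (hfg : ∀ x, g (f x) = x) (e e' : LL (UF S) → LL (UF S)),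
      (∀ c : Cd S, ∃ h h', e (mkLL c.fn h) = mkLL (c.map f).fn h') →
      (∀ c : Cd S, ∃ h h', e' (mkLL c.fn h) = mkLL (c.map g).fn h') → ∀ x, e' (e x) = x := by
    intro f g hfg e e' hfn hfn' x
    obtain ⟨c, hc⟩ := hCDE S x.1 x.2
    obtain ⟨h1, h2, h3⟩ := hfn c
    obtain ⟨h4, h5, h6⟩ := hfn' (c.map f)
    have hx : x = mkLL c.fn h1 := Subtype.ext hc.symm
    rw [hx, h3]
    have h7 := h6
    rw [show mkLL (c.map f).fn h2 = mkLL (c.map f).fn h4 from rfl, h6]
    apply Subtype.ext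
    change ((c.map f).map g).fn = c.fn
    rw [hcomp f g hfg]
  have he : ∀ x, e' (e x) = x := hinv f g hfg e e' hfn hfn'
  have he' : ∀ x, e (e' x) = x := hinv g f hgf e' e hfn' hfn
  obtain ⟨h1, h2, h3⟩ := hfn c
  obtain ⟨h4, h5, h6⟩ := hfn d
  have h3' : e (mkLL c.fn ((hCDG S).1 c)) = mkLL (c.map f).fn ((hCDG S).1 _) := h3
  have h6' : e (mkLL d.fn ((hCDG S).1 d)) = mkLL (d.map f).fn ((hCDG S).1 _) := h6
  rw [← h3', ← h6']
  refine hLAI _ _ β _ _ _ _ ⟨e, e', ?_, ?_, ?_, ?_⟩ h
  · intro x hx1 hx2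
    exact ⟨(hle _ _).2 hx1, (hle _ _).2 hx2, he x⟩
  · intro y hy1 hy2
    refine ⟨?_, ?_, he' y⟩
    · rw [← hle, he']
      exact hy1
    · rw [← hle, he']
      exact hy2
  · intro x y _ hxy _
    exact (hle _ _).2 hxy
  · intro x y _ hxy _
    exact (hle' _ _).2 hxy

theorem pf_ORB (hLAS : T_LAS.{1}) (hMOC : T_MOC) (hMOU : T_MOU) (hLAI : T_LAI.{0, 1, 1})
    (hCDG : T_CDG) (hCDE : T_CDE) (_hCDL : T_CDL) (hCDM : T_CDM) (hAUT : T_AUT) : T_ORB := by
  classical
  intro K _ _ n s
  have hN := noeth s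
  have hcoh : Coh (FGModuleCat.{0} (Al s)) := (hMOC (Al s)).1
  have hfp : Fact (IsFP (UF (Al s))) := ⟨(hMOC (Al s)).2.1⟩
  rw [hMOU (Al s)]
  have hcode : ∀ a : LL (UF (Al s)), ∃ c : Cd (Al s), mkLL c.fn ((hCDG (Al s)).1 c) = a :=
    fun a => by
      obtain ⟨c, hc⟩ := hCDE (Al s) a.1 a.2
      exact ⟨c, Subtype.ext hc⟩
  choose cd hcd using hcode
  by_cases hK : Countable K
  · have h1 : Countable (Al s) := inferInstanceAs (Countable (Fin n → K))
    have h2 : Countable (Cd (Al s)) := by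
      rw [← Set.countable_univ_iff]
      refine (codes_countable (Set.univ : Set (Al s)) Set.countable_univ).mono ?_
      intro c _
      exact Set.subset_univ _
    refine hLAS _ (Cd (Al s) × Cd (Al s)) (fun a b => (cd a, cd b)) ?_
    intro a b a' b' h β hSt
    obtain ⟨h3, h4⟩ := Prod.mk.inj h
    have h5 : a = a' := by rw [← hcd a, ← hcd a', h3]
    have h6 : b = b' := by rw [← hcd b, ← hcd b', h4]
    rwa [← h5, ← h6]
  · let sh : LL (UF (Al s)) → LL (UF (Al s)) → Sh := fun a b =>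
      (((cd a).n, (cd a).m), ((cd b).n, (cd b).m))
    let tp : ∀ a b : LL (UF (Al s)), Tp s (sh a b) := fun a b =>
      (((cd a).a, (cd a).b), ((cd b).a, (cd b).b))
    have hcnt : ∀ t : Sh, Countable (Ideal (MvPolynomial (Fin (Fintype.card (Jx n t))) ℤ)) :=
      fun t => by
        have hc : Countable (MvPolynomial (Fin (Fintype.card (Jx n t))) ℤ) := countable_mv _
        exact countable_ideal _
    have core : ∀ (t t' : Sh) (x : Tp s t) (x' : Tp s t'),
        (⟨t, Idl s t x⟩ : Σ t : Sh, Ideal (MvPolynomial (Fin (Fintype.card (Jx n t))) ℤ)) =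
          ⟨t', Idl s t' x'⟩ → ∀ β : Ordinal.{0},
        St β (mkLL (c1 s t x).fn ((hCDG _).1 _)) (mkLL (c2 s t x).fn ((hCDG _).1 _)) →
        St β (mkLL (c1 s t' x').fn ((hCDG _).1 _)) (mkLL (c2 s t' x').fn ((hCDG _).1 _)) := by
      intro t t' x x' h β hSt
      obtain ⟨rfl, h2⟩ := Sigma.mk.inj_iff.1 h
      have h3 := eq_of_heq h2
      obtain ⟨σ, hσ⟩ := exists_sigma s hAUT hK t x x' h3
      have hc : ∀ i j l, σ (s.c i j l) = s.c i j l := fun i j l => hσ (.inl (.inl (i, j, l)))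
      have hu : ∀ i, σ (s.u i) = s.u i := fun i => hσ (.inl (.inr i))
      have hc' : ∀ i j l, σ.symm (s.c i j l) = s.c i j l := fun i j l => by
        conv_lhs => rw [← hc i j l]
        exact σ.symm_apply_apply _
      have hu' : ∀ i, σ.symm (s.u i) = s.u i := fun i => by
        conv_lhs => rw [← hu i]
        exact σ.symm_apply_apply _
      have key := transfer hLAI hCDG hCDE hCDM (Al s) (tau s σ.toRingHom hc hu)
        (tau s σ.symm.toRingHom hc' hu') (fun y => al_ext s fun l => σ.symm_apply_apply (y l))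
        (fun y => al_ext s fun l => σ.apply_symm_apply (y l)) (c1 s t x) (c2 s t x) β hSt
      have e1 : (c1 s t x).map (tau s σ.toRingHom hc hu) = c1 s t x' := by
        unfold c1 Cd.map
        congr 1
        · funext j
          exact al_ext s fun l => hσ (.inr (.inl (.inl (j, l))))
        · funext j i
          exact al_ext s fun l => hσ (.inr (.inl (.inr (j, i, l))))
      have e2 : (c2 s t x).map (tau s σ.toRingHom hc hu) = c2 s t x' := by
        unfold c2 Cd.map
        congr 1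
        · funext j
          exact al_ext s fun l => hσ (.inr (.inr (.inl (j, l))))
        · funext j i
          exact al_ext s fun l => hσ (.inr (.inr (.inr (j, i, l))))
      simp only [e1, e2] at key
      exact key
    refine hLAS _ (Σ t : Sh, Ideal (MvPolynomial (Fin (Fintype.card (Jx n t))) ℤ))
      (fun a b => ⟨sh a b, Idl s (sh a b) (tp a b)⟩) ?_
    intro a b a' b' h β hSt
    have h1 := core (sh a b) (sh a' b') (tp a b) (tp a' b') h β
    have g1 : ∀ a b, mkLL (c1 s (sh a b) (tp a b)).fn ((hCDG _).1 _) = a := fun a b => hcd a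
    have g2 : ∀ a b, mkLL (c2 s (sh a b) (tp a b)).fn ((hCDG _).1 _) = b := fun a b => hcd b
    rw [g1, g2, g1, g2] at h1
    exact h1 hSt

end Pool.Agent.H35.UB
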